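import Pool.Agent.H86.Ufr

set_option autoImplicit false

namespace Pool.Agent.Results.MP_b9874d_an.ShiftA

open Filter

/-- the upper density of a set of natural numbers -/
noncomputable def udens (A : Set ℕ) : ℝ :=
  limsup (fun N : ℕ => ((A ∩ Set.Icc 1 N).ncard : ℝ) / N) atTop

variable {X : Type} [NormedAddCommGroup X] [NormedSpace ℂ X]

/-- property A -/
def PropA (T : X →L[ℂ] X) : Prop :=
  ∀ U : Set X, IsOpen U → U.Nonempty → ∃ x, 0 < udens {n | (T ^ n) x ∈ U}

/-- `x` is U-frequently recurrent for `T` -/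
def UFRec (T : X →L[ℂ] X) (x : X) : Prop :=
  ∀ V : Set X, IsOpen V → x ∈ V → 0 < udens {n | (T ^ n) x ∈ V}

open Finset Classical in
theorem udens_pos (A : Set ℕ) : 0 < udens A ↔
    ∃ δ : ℝ, 0 < δ ∧ ∃ᶠ N : ℕ in atTop, δ * N ≤ #{n ∈ Icc 1 N | n ∈ A} := by
  have e : ∀ N : ℕ, (A ∩ Set.Icc 1 N).ncard = #{n ∈ Icc 1 N | n ∈ A} := fun N => by
    rw [← Set.ncard_coe_finset]
    congr 1
    ext n
    simp only [Set.mem_inter_iff, Set.mem_Icc, coe_filter, mem_Icc, Set.mem_ofPred_eq, and_comm]
  simp only [udens, e]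
  constructor
  · intro h
    obtain ⟨δ, h1, h2⟩ := exists_between h
    refine ⟨δ, h1, ((frequently_lt_of_lt_limsup (isCoboundedUnder_le_of_le atTop (x := 0)
      fun N => by positivity) h2).and_eventually (eventually_gt_atTop 0)).mono fun N hN => ?_⟩
    exact ((lt_div_iff₀ (by exact_mod_cast hN.2)).mp hN.1).le
  · rintro ⟨δ, h1, h2⟩
    refine h1.trans_le (le_limsup_of_frequently_le ((h2.and_eventually (eventually_gt_atTop 0)).mono
      fun N hN => (le_div_iff₀ (by exact_mod_cast hN.2)).mpr hN.1)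
      (isBoundedUnder_of ⟨1, fun N => div_le_one_of_le₀ ?_ (by positivity)⟩))
    exact_mod_cast (card_filter_le _ _).trans (by simp)

/-- There is an operator with property A whose only U-frequently recurrent vector is zero. -/
theorem result : ∃ (X : Type) (_ : NormedAddCommGroup X) (_ : NormedSpace ℂ X)
    (_ : CompleteSpace X) (T : X →L[ℂ] X),
    PropA T ∧ (∀ x, UFRec T x → x = 0) ∧ ¬ Dense {x | UFRec T x} := by
  open Pool.Agent.H86.Ufr ZeroAtInfty Finset Classical in
  have h : ∀ x, UFRec TT x → x = 0 := fun x hx => noRec x fun ε hε => by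
    have := (udens_pos _).mp (hx _ Metric.isOpen_ball (Metric.mem_ball_self hε))
    simpa only [Metric.mem_ball, dist_eq_norm] using this
  refine ⟨C₀(ℤ, ℂ), inferInstance, inferInstance, inferInstance, TT, ?_, h, fun hd => ?_⟩
  · rintro U hU ⟨y, hy⟩
    obtain ⟨ε, hε, h1⟩ := Metric.isOpen_iff.mp hU y hy
    obtain ⟨x, d, hd, h2⟩ := propA y (half_pos hε)
    refine ⟨x, (udens_pos _).mpr ⟨1 / d, by positivity, frequently_atTop.mpr fun c =>
      ⟨c * d, Nat.le_mul_of_pos_right _ hd, ?_⟩⟩⟩
    have h3 : #(Icc 1 c) ≤ #{n ∈ Icc 1 (c * d) | n ∈ {n | (TT ^ n) x ∈ U}} :=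
      card_le_card_of_injOn (· * d) (fun i hi => by
        have := mem_Icc.mp hi
        refine mem_filter.mpr ⟨mem_Icc.mpr ⟨Nat.mul_pos this.1 hd, Nat.mul_le_mul_right _ this.2⟩,
          h1 ?_⟩
        rw [Metric.mem_ball, dist_eq_norm]
        exact (h2 i).trans_lt (half_lt_self hε))
        fun i _ j _ h => Nat.eq_of_mul_eq_mul_right hd h
    have h4 : 1 / (d : ℝ) * (c * d : ℕ) = #(Icc 1 c) := by
      have : (d : ℝ) ≠ 0 := by positivity
      simp only [Nat.card_Icc, add_tsub_cancel_right]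
      push_cast
      field_simp
    rw [h4]
    exact_mod_cast h3
  · let y : C₀(ℤ, ℂ) :=
      { toFun := fun m => if m = 0 then 1 else 0
        continuous_toFun := continuous_of_discreteTopology
        zero_at_infty' := by
          rw [cocompact_eq_cofinite]
          exact tendsto_const_nhds.congr' ((eventually_cofinite_ne 0).mono fun m hm =>
            (if_neg hm).symm) }
    have h1 : y ∈ closure {0} := closure_mono (fun x hx => h x hx) (hd y)
    rw [closure_singleton] at h1
    exact one_ne_zero ((if_pos rfl).symm.trans (DFunLike.congr_fun h1 0))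

end Pool.Agent.Results.MP_b9874d_an.ShiftA
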